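import Mathlib

/-!
# MP_c62d6e_an: locality of minimal node counts for Chebyshev-type trigonometric quadrature

We construct weights `W₁`, `W₂ = √2 W₁` and `W`, locally equal to `W₁` or `W₂`, with
`N_{Wᵢ}(n) ≤ n + 2` and `N_W(n)` exponentially large.
-/

open MeasureTheory Set
open scoped Real ENNReal

namespace Pool.Agent.Results.MP_c62d6e_an.NotLocal

/-- A `2π`-periodic weight function. -/
structure IsWeight (W : ℝ → ℝ) : Prop where
  measurable : Measurable W
  periodic : Function.Periodic W (2 * π)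
  nonneg : ∀ θ, 0 ≤ W θ
  integrable : IntervalIntegrable W volume (-π) π
  pos : 0 < ∫ θ in (-π)..π, W θ

/-- The real trigonometric polynomials of degree at most `n`. -/
def trigPoly (n : ℕ) : Submodule ℝ (ℝ → ℝ) :=
  Submodule.span ℝ {f | ∃ k ≤ n, (f = fun θ => Real.cos (k * θ)) ∨ f = fun θ => Real.sin (k * θ)}

/-- There is a Chebyshev-type trigonometric quadrature of degree `n` for `W` with `N` nodes. -/
def HasQuadrature (W : ℝ → ℝ) (n N : ℕ) : Prop :=
  ∃ (x : Fin N → ℝ) (w : ℝ), Monotone x ∧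
    ∀ p ∈ trigPoly n, ∫ θ in (-π)..π, p θ * W θ = w * ∑ i, p (x i)

/-- `N_W(n)`, the least number of nodes, as an extended natural number. -/
noncomputable def minNodes (W : ℝ → ℝ) (n : ℕ) : ℕ∞ :=
  ⨅ (N : ℕ) (_ : HasQuadrature W n N), (N : ℕ∞)

section trig

lemma cos_mem {k n : ℕ} (h : k ≤ n) : (fun θ : ℝ => Real.cos (k * θ)) ∈ trigPoly n :=
  Submodule.subset_span ⟨k, h, Or.inl rfl⟩

lemma sin_mem {k n : ℕ} (h : k ≤ n) : (fun θ : ℝ => Real.sin (k * θ)) ∈ trigPoly n :=
  Submodule.subset_span ⟨k, h, Or.inr rfl⟩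

lemma trigPoly_mono {n n' : ℕ} (h : n ≤ n') : trigPoly n ≤ trigPoly n' := by
  refine Submodule.span_mono ?_
  rintro f ⟨k, hk, hf⟩
  exact ⟨k, hk.trans h, hf⟩

lemma one_mem (n : ℕ) : (fun _ : ℝ => (1 : ℝ)) ∈ trigPoly n := by
  have h := cos_mem (Nat.zero_le n)
  simpa using h

lemma continuous_of_mem {n : ℕ} {p : ℝ → ℝ} (hp : p ∈ trigPoly n) : Continuous p := by
  induction hp using Submodule.span_induction with
  | mem f hf =>
    obtain ⟨k, -, rfl | rfl⟩ := hf <;> fun_prop
  | zero => exact continuous_const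
  | add f g _ _ hf hg => exact hf.add hg
  | smul c f _ hf => exact hf.const_smul c

lemma periodic_of_mem {n : ℕ} {p : ℝ → ℝ} (hp : p ∈ trigPoly n) :
    Function.Periodic p (2 * π) := by
  induction hp using Submodule.span_induction with
  | mem f hf =>
    obtain ⟨k, -, rfl | rfl⟩ := hf
    · intro θ
      show Real.cos (k * (θ + 2 * π)) = _
      rw [mul_add, Real.cos_add_nat_mul_two_pi]
    · intro θ
      show Real.sin (k * (θ + 2 * π)) = _
      rw [mul_add, Real.sin_add_nat_mul_two_pi]
  | zero => intro θ; rfl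
  | add f g _ _ hf hg => exact hf.add hg
  | smul c f _ hf =>
    intro θ
    show c • f (θ + 2 * π) = c • f θ
    rw [hf]

lemma mul_cos_mem {n : ℕ} {p : ℝ → ℝ} (hp : p ∈ trigPoly n) :
    (fun θ => Real.cos θ * p θ) ∈ trigPoly (n + 1) := by
  induction hp using Submodule.span_induction with
  | mem f hf =>
    obtain ⟨k, hk, rfl | rfl⟩ := hf
    · rcases Nat.eq_zero_or_pos k with rfl | hk0
      · have h := cos_mem (k := 1) (n := n + 1) (by omega)
        simpa using h
      · have e : (fun θ : ℝ => Real.cos θ * Real.cos (k * θ)) =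
            (1 / 2 : ℝ) • (fun θ : ℝ => Real.cos (((k + 1 : ℕ) : ℝ) * θ)) +
            (1 / 2 : ℝ) • (fun θ : ℝ => Real.cos (((k - 1 : ℕ) : ℝ) * θ)) := by
          funext θ
          simp only [Pi.add_apply, Pi.smul_apply, smul_eq_mul]
          rw [Nat.cast_sub hk0]
          push_cast
          rw [add_mul, sub_mul, one_mul, Real.cos_add, Real.cos_sub]
          ring
        rw [e]
        exact Submodule.add_mem _ (Submodule.smul_mem _ _ (cos_mem (by omega)))
          (Submodule.smul_mem _ _ (cos_mem (by omega)))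
    · rcases Nat.eq_zero_or_pos k with rfl | hk0
      · have : (fun θ : ℝ => Real.cos θ * Real.sin (((0 : ℕ) : ℝ) * θ)) = 0 := by
          funext θ; simp
        rw [this]
        exact Submodule.zero_mem _
      · have e : (fun θ : ℝ => Real.cos θ * Real.sin (k * θ)) =
            (1 / 2 : ℝ) • (fun θ : ℝ => Real.sin (((k + 1 : ℕ) : ℝ) * θ)) +
            (1 / 2 : ℝ) • (fun θ : ℝ => Real.sin (((k - 1 : ℕ) : ℝ) * θ)) := by
          funext θ
          simp only [Pi.add_apply, Pi.smul_apply, smul_eq_mul]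
          rw [Nat.cast_sub hk0]
          push_cast
          rw [add_mul, sub_mul, one_mul, Real.sin_add, Real.sin_sub]
          ring
        rw [e]
        exact Submodule.add_mem _ (Submodule.smul_mem _ _ (sin_mem (by omega)))
          (Submodule.smul_mem _ _ (sin_mem (by omega)))
  | zero =>
    have : (fun θ : ℝ => Real.cos θ * (0 : ℝ → ℝ) θ) = 0 := by funext θ; simp
    rw [this]
    exact Submodule.zero_mem _
  | add f g _ _ hf hg =>
    have : (fun θ : ℝ => Real.cos θ * (f + g) θ) =
        (fun θ => Real.cos θ * f θ) + fun θ => Real.cos θ * g θ := by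
      funext θ; simp only [Pi.add_apply]; ring
    rw [this]
    exact Submodule.add_mem _ hf hg
  | smul c f _ hf =>
    have : (fun θ : ℝ => Real.cos θ * (c • f) θ) = c • fun θ => Real.cos θ * f θ := by
      funext θ; simp only [Pi.smul_apply, smul_eq_mul]; ring
    rw [this]
    exact Submodule.smul_mem _ _ hf

lemma cos_pow_mem (k : ℕ) : (fun θ : ℝ => Real.cos θ ^ k) ∈ trigPoly k := by
  induction k with
  | zero => simpa using one_mem 0
  | succ k ih =>
    have := mul_cos_mem ih
    have e : (fun θ : ℝ => Real.cos θ ^ (k + 1)) = fun θ => Real.cos θ * Real.cos θ ^ k := by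
      funext θ; ring
    rw [e]
    exact this

lemma poly_cos_mem {n : ℕ} (q : Polynomial ℝ) (hq : q.natDegree ≤ n) :
    (fun θ => q.eval (Real.cos θ)) ∈ trigPoly n := by
  have e : (fun θ => q.eval (Real.cos θ)) =
      ∑ k ∈ Finset.range (n + 1), q.coeff k • fun θ : ℝ => Real.cos θ ^ k := by
    funext θ
    rw [Polynomial.eval_eq_sum_range' (Nat.lt_succ_of_le hq), Finset.sum_apply]
    rfl
  rw [e]
  refine Submodule.sum_mem _ fun k hk => Submodule.smul_mem _ _ ?_
  exact trigPoly_mono (Nat.lt_succ_iff.mp (Finset.mem_range.mp hk)) (cos_pow_mem k)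

end trig

section quad

/-- The nodes may be indexed by any finite type, in any order. -/
lemma hasQuadrature_of {ι : Type*} [Fintype ι] {W : ℝ → ℝ} {n N : ℕ} (hN : Fintype.card ι = N)
    (x : ι → ℝ) (w : ℝ)
    (h : ∀ p ∈ trigPoly n, ∫ θ in (-π)..π, p θ * W θ = w * ∑ i, p (x i)) :
    HasQuadrature W n N := by
  classical
  set e := Fintype.equivFinOfCardEq hN
  set y : Fin N → ℝ := fun i => x (e.symm i) with hy
  refine ⟨y ∘ Tuple.sort y, w, Tuple.monotone_sort y, fun p hp => ?_⟩
  rw [h p hp]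
  congr 1
  have h1 : ∑ i, p ((y ∘ Tuple.sort y) i) = ∑ i, p (y i) :=
    Equiv.sum_comp (Tuple.sort y) fun i => p (y i)
  rw [h1]
  exact (Equiv.sum_comp e.symm fun i => p (x i)).symm

end quad

section arc

/-- the weight near `0` -/
noncomputable def A (θ : ℝ) : ℝ := open Classical in
  if |Real.sin θ| < 1 / 4 ∧ 0 < Real.cos θ then Real.cos θ / √((1 / 4) ^ 2 - Real.sin θ ^ 2) else 0

lemma A_nonneg (θ : ℝ) : 0 ≤ A θ := by
  unfold A
  split_ifs with h
  · exact div_nonneg h.2.le (Real.sqrt_nonneg _)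
  · exact le_rfl

lemma A_measurable : Measurable A := by
  classical
  unfold A
  refine Measurable.ite ?_ ?_ measurable_const
  · exact (measurableSet_lt Real.measurable_sin.abs measurable_const).inter
      (measurableSet_lt measurable_const Real.measurable_cos)
  · exact Real.measurable_cos.div
      ((measurable_const.sub (Real.measurable_sin.pow_const 2)).sqrt)

lemma A_periodic : Function.Periodic A (2 * π) := by
  intro θ
  unfold A
  rw [Real.sin_add_two_pi, Real.cos_add_two_pi]

/-- the parametrisation of the arc -/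
noncomputable def φ (t : ℝ) : ℝ := Real.arcsin (Real.sin t / 4)

lemma sin_quarter (t : ℝ) : |Real.sin t / 4| ≤ 1 / 4 := by
  rw [abs_div, abs_of_pos (by norm_num : (0 : ℝ) < 4)]
  have := Real.abs_sin_le_one t
  linarith

lemma sin_φ (t : ℝ) : Real.sin (φ t) = Real.sin t / 4 := by
  have h := abs_le.mp (sin_quarter t)
  exact Real.sin_arcsin (by linarith [h.1]) (by linarith [h.2])

lemma cos_φ_sq (t : ℝ) : Real.cos (φ t) ^ 2 = 1 - (Real.sin t / 4) ^ 2 := by
  rw [← sin_φ, Real.cos_sq']

lemma cos_φ_pos (t : ℝ) : 0 < Real.cos (φ t) := by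
  have h1 : 0 ≤ Real.cos (φ t) := Real.cos_arcsin_nonneg _
  have h2 := cos_φ_sq t
  have h3 : (Real.sin t / 4) ^ 2 ≤ (1 / 4) ^ 2 := by
    rw [← sq_abs]
    exact pow_le_pow_left₀ (abs_nonneg _) (sin_quarter t) 2
  refine lt_of_le_of_ne h1 fun h => ?_
  rw [← h] at h2
  nlinarith

lemma continuous_φ : Continuous φ := by
  unfold φ
  exact Real.continuous_arcsin.comp (Real.continuous_sin.div_const 4)

/-- the half-width of the arc -/
noncomputable def β : ℝ := Real.arcsin (1 / 4)

lemma β_pos : 0 < β := Real.arcsin_pos.mpr (by norm_num)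

lemma β_lt : β < π / 2 := by
  unfold β
  rw [Real.arcsin_lt_pi_div_two]
  norm_num

lemma sin_β : Real.sin β = 1 / 4 := Real.sin_arcsin (by norm_num) (by norm_num)

lemma image_φ : φ '' Ioo (-(π / 2)) (π / 2) = Ioo (-β) β := by
  ext θ
  constructor
  · rintro ⟨t, ⟨h1, h2⟩, rfl⟩
    have hs1 : -1 < Real.sin t := by
      have := Real.sin_lt_sin_of_lt_of_le_pi_div_two (x := -(π / 2)) (y := t) le_rfl h2.le h1
      rwa [Real.sin_neg, Real.sin_pi_div_two] at this
    have hs2 : Real.sin t < 1 := by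
      have := Real.sin_lt_sin_of_lt_of_le_pi_div_two (x := t) (y := π / 2) h1.le le_rfl h2
      rwa [Real.sin_pi_div_two] at this
    unfold φ β
    rw [← Real.arcsin_neg]
    exact ⟨Real.arcsin_lt_arcsin (by norm_num) (by linarith) (by linarith),
      Real.arcsin_lt_arcsin (by linarith) (by linarith) (by norm_num)⟩
  · rintro ⟨h1, h2⟩
    have hβ := β_lt
    have hs1 : -(1 / 4) < Real.sin θ := by
      rw [← sin_β, ← Real.sin_neg]
      exact Real.sin_lt_sin_of_lt_of_le_pi_div_two (by linarith) (by linarith) h1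
    have hs2 : Real.sin θ < 1 / 4 := by
      rw [← sin_β]
      exact Real.sin_lt_sin_of_lt_of_le_pi_div_two (by linarith) (by linarith) h2
    refine ⟨Real.arcsin (4 * Real.sin θ), ⟨?_, ?_⟩, ?_⟩
    · exact Real.neg_pi_div_two_lt_arcsin.mpr (by linarith)
    · exact Real.arcsin_lt_pi_div_two.mpr (by linarith)
    · unfold φ
      rw [Real.sin_arcsin (by linarith) (by linarith), mul_div_cancel_left₀ _ (by norm_num : (4 : ℝ) ≠ 0)]
      exact Real.arcsin_sin (by linarith) (by linarith)

lemma hasDerivAt_φ (t : ℝ) : HasDerivAt φ (1 / √(1 - (Real.sin t / 4) ^ 2) * (Real.cos t / 4)) t := by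
  have h := abs_le.mp (sin_quarter t)
  have h1 : HasDerivAt (fun t => Real.sin t / 4) (Real.cos t / 4) t :=
    (Real.hasDerivAt_sin t).div_const 4
  exact (Real.hasDerivAt_arcsin (by linarith [h.1]) (by linarith [h.2])).comp t h1

lemma injOn_φ : InjOn φ (Ioo (-(π / 2)) (π / 2)) := by
  intro s hs t ht hst
  have h1 : Real.sin s / 4 = Real.sin t / 4 := by rw [← sin_φ, ← sin_φ, hst]
  have h2 : Real.sin s = Real.sin t := by linarith
  exact Real.injOn_sin ⟨hs.1.le, hs.2.le⟩ ⟨ht.1.le, ht.2.le⟩ h2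

lemma deriv_mul_A {t : ℝ} (ht : t ∈ Ioo (-(π / 2)) (π / 2)) :
    |1 / √(1 - (Real.sin t / 4) ^ 2) * (Real.cos t / 4)| * A (φ t) = 1 := by
  have hc : 0 < Real.cos t := Real.cos_pos_of_mem_Ioo ht
  have hφ := cos_φ_pos t
  have hs : Real.sin t ^ 2 + Real.cos t ^ 2 = 1 := Real.sin_sq_add_cos_sq t
  have hlt : |Real.sin (φ t)| < 1 / 4 := by
    rw [sin_φ, abs_div, abs_of_pos (by norm_num : (0 : ℝ) < 4)]
    have : |Real.sin t| < 1 := by
      rw [abs_lt]
      constructor <;> nlinarith [hc]
    linarith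
  have e1 : √(1 - (Real.sin t / 4) ^ 2) = Real.cos (φ t) := by
    rw [← cos_φ_sq, Real.sqrt_sq hφ.le]
  have e2 : √((1 / 4) ^ 2 - Real.sin (φ t) ^ 2) = Real.cos t / 4 := by
    rw [sin_φ, show (1 / 4 : ℝ) ^ 2 - (Real.sin t / 4) ^ 2 = (Real.cos t / 4) ^ 2 by nlinarith,
      Real.sqrt_sq (by positivity)]
  rw [e1]
  unfold A
  rw [if_pos ⟨hlt, hφ⟩, e2, abs_of_pos (by positivity)]
  field_simp

lemma A_eq_zero {θ : ℝ} (h1 : θ ∈ Ioc (-π) π) (h2 : θ ∉ Ioo (-β) β) : A θ = 0 := by
  unfold A
  rw [if_neg]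
  rintro ⟨h3, h4⟩
  apply h2
  rw [abs_lt] at h3
  -- θ lies in (-π/2, π/2)
  have hθ : θ ∈ Ioo (-(π / 2)) (π / 2) := by
    constructor
    · by_contra h
      push Not at h
      have : Real.cos θ ≤ 0 := by
        rw [← Real.cos_neg]
        exact Real.cos_nonpos_of_pi_div_two_le_of_le (by linarith) (by linarith [h1.1, Real.pi_pos])
      linarith
    · by_contra h
      push Not at h
      have : Real.cos θ ≤ 0 :=
        Real.cos_nonpos_of_pi_div_two_le_of_le h (by linarith [h1.2, Real.pi_pos])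
      linarith
  have hβ := β_lt
  have hβ0 := β_pos
  constructor
  · by_contra h
    push Not at h
    have : Real.sin θ ≤ Real.sin (-β) :=
      Real.sin_le_sin_of_le_of_le_pi_div_two hθ.1.le (by linarith) h
    rw [Real.sin_neg, sin_β] at this
    linarith
  · by_contra h
    push Not at h
    have : Real.sin β ≤ Real.sin θ :=
      Real.sin_le_sin_of_le_of_le_pi_div_two (by linarith) hθ.2.le h
    rw [sin_β] at this
    linarith

lemma integral_A_aux (g : ℝ → ℝ) : ∫ θ in Ioo (-β) β, g θ * A θ =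
    ∫ t in Ioo (-(π / 2)) (π / 2), g (φ t) := by
  rw [← image_φ, integral_image_eq_integral_abs_deriv_smul measurableSet_Ioo
    (fun t _ => (hasDerivAt_φ t).hasDerivWithinAt) injOn_φ]
  refine setIntegral_congr_fun measurableSet_Ioo fun t ht => ?_
  show |_| • (g (φ t) * A (φ t)) = _
  rw [smul_eq_mul, mul_comm (g (φ t)), ← mul_assoc, deriv_mul_A ht, one_mul]

lemma integrableOn_A_aux {g : ℝ → ℝ} (hg : Continuous g) :
    IntegrableOn (fun θ => g θ * A θ) (Ioo (-β) β) := by
  rw [← image_φ, integrableOn_image_iff_integrableOn_abs_deriv_smul measurableSet_Ioo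
    (fun t _ => (hasDerivAt_φ t).hasDerivWithinAt) injOn_φ]
  have h1 : IntegrableOn (fun t => g (φ t)) (Ioo (-(π / 2)) (π / 2)) :=
    ((hg.comp continuous_φ).integrableOn_Icc (a := -(π / 2)) (b := π / 2)).mono_set
      Ioo_subset_Icc_self
  refine h1.congr_fun (fun t ht => ?_) measurableSet_Ioo
  show g (φ t) = |_| • (g (φ t) * A (φ t))
  rw [smul_eq_mul, mul_comm (g (φ t)), ← mul_assoc, deriv_mul_A ht, one_mul]

lemma intervalIntegrable_A {g : ℝ → ℝ} (hg : Continuous g) :
    IntervalIntegrable (fun θ => g θ * A θ) volume (-π) π := by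
  rw [intervalIntegrable_iff_integrableOn_Ioc_of_le (by linarith [Real.pi_pos])]
  have hsub : Ioo (-β) β ⊆ Ioc (-π) π := by
    intro θ hθ
    have := β_lt
    have := Real.pi_pos
    exact ⟨by linarith [hθ.1], by linarith [hθ.2]⟩
  have h1 := (integrable_indicator_iff measurableSet_Ioo).mpr (integrableOn_A_aux hg)
  refine (h1.integrableOn (s := Ioc (-π) π)).congr_fun (fun θ hθ => ?_) measurableSet_Ioc
  by_cases h : θ ∈ Ioo (-β) β
  · rw [indicator_of_mem h]
  · rw [indicator_of_notMem h]
    show 0 = g θ * A θ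
    rw [A_eq_zero hθ h, mul_zero]

/-- The basic integral formula. -/
lemma integral_A (g : ℝ → ℝ) : ∫ θ in (-π)..π, g θ * A θ = ∫ t in (-(π / 2))..(π / 2), g (φ t) := by
  have hsub : Ioo (-β) β ⊆ Ioc (-π) π := by
    intro θ hθ
    have := β_lt
    have := Real.pi_pos
    exact ⟨by linarith [hθ.1], by linarith [hθ.2]⟩
  rw [intervalIntegral.integral_of_le (by linarith [Real.pi_pos]),
    intervalIntegral.integral_of_le (by linarith [Real.pi_pos]),
    integral_Ioc_eq_integral_Ioo (μ := volume) (x := -(π / 2)) (y := π / 2), ← integral_A_aux]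
  refine (setIntegral_eq_of_subset_of_forall_sdiff_eq_zero measurableSet_Ioc hsub fun θ hθ => ?_)
  rw [A_eq_zero hθ.1 hθ.2, mul_zero]

lemma A_shift_periodic {g : ℝ → ℝ} (hp : Function.Periodic g (2 * π)) :
    Function.Periodic (fun θ => g (θ + π) * A θ) (2 * π) := by
  intro θ
  show g (θ + 2 * π + π) * A (θ + 2 * π) = g (θ + π) * A θ
  rw [A_periodic, show θ + 2 * π + π = θ + π + 2 * π by ring, hp]

/-- The formula for the opposite arc. -/
lemma integral_A_shift {g : ℝ → ℝ} (hp : Function.Periodic g (2 * π)) :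
    ∫ θ in (-π)..π, g θ * A (θ + π) = ∫ t in (-(π / 2))..(π / 2), g (φ t + π) := by
  have h1 : ∫ θ in (-π)..π, g θ * A (θ + π) = ∫ θ in (0 : ℝ)..(2 * π), g (θ + π) * A θ := by
    have h2 : ∀ θ, g θ * A (θ + π) = (fun u => g (u + π) * A u) (θ + π) := by
      intro θ
      show _ = g (θ + π + π) * A (θ + π)
      rw [show θ + π + π = θ + 2 * π by ring, hp]
    simp only [h2]
    rw [intervalIntegral.integral_comp_add_right (fun u => g (u + π) * A u)]
    congr 1 <;> ring
  have h3 := (A_shift_periodic hp).intervalIntegral_add_eq (-π) 0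
  rw [zero_add, show -π + 2 * π = π by ring] at h3
  rw [h1, ← h3, integral_A (fun θ => g (θ + π))]

lemma intervalIntegrable_A_shift {g : ℝ → ℝ} (hg : Continuous g)
    (hp : Function.Periodic g (2 * π)) :
    IntervalIntegrable (fun θ => g θ * A (θ + π)) volume (-π) π := by
  have h1 : IntervalIntegrable (fun θ => g (θ + π) * A θ) volume (-π) π :=
    intervalIntegrable_A (hg.comp (continuous_add_const π))
  have h2 : IntervalIntegrable (fun θ => g (θ + π) * A θ) volume 0 (2 * π) := by
    refine (A_shift_periodic hp).intervalIntegrable (by have := Real.pi_pos; positivity)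
      (t := -π) ?_ 0 (2 * π)
    rw [show -π + 2 * π = π by ring]
    exact h1
  have h3 := h2.comp_add_right π
  rw [zero_sub, show 2 * π - π = π by ring] at h3
  refine h3.congr (fun θ _ => ?_)
  show g (θ + π + π) * A (θ + π) = g θ * A (θ + π)
  rw [show θ + π + π = θ + 2 * π by ring, hp]

end arc

section design

/-- the span of `cos (2 m t)`, `m ≤ l` -/
def cosSpan (l : ℕ) : Submodule ℝ (ℝ → ℝ) :=
  Submodule.span ℝ {f | ∃ m ≤ l, f = fun t => Real.cos (2 * m * t)}

lemma cosSpan_mono {l l' : ℕ} (h : l ≤ l') : cosSpan l ≤ cosSpan l' := by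
  refine Submodule.span_mono ?_
  rintro f ⟨k, hk, hf⟩
  exact ⟨k, hk.trans h, hf⟩

lemma cosSpan_mem {m l : ℕ} (h : m ≤ l) : (fun t : ℝ => Real.cos (2 * m * t)) ∈ cosSpan l :=
  Submodule.subset_span ⟨m, h, rfl⟩

lemma cosSpan_mul {l : ℕ} {f : ℝ → ℝ} (hf : f ∈ cosSpan l) :
    (fun t => Real.cos (2 * t) * f t) ∈ cosSpan (l + 1) := by
  induction hf using Submodule.span_induction with
  | mem f hf =>
    obtain ⟨m, hm, rfl⟩ := hf
    rcases Nat.eq_zero_or_pos m with rfl | hm0
    · have h := cosSpan_mem (m := 1) (l := l + 1) (by omega)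
      simpa using h
    · have e : (fun t : ℝ => Real.cos (2 * t) * Real.cos (2 * m * t)) =
          (1 / 2 : ℝ) • (fun t : ℝ => Real.cos (2 * ((m + 1 : ℕ) : ℝ) * t)) +
          (1 / 2 : ℝ) • (fun t : ℝ => Real.cos (2 * ((m - 1 : ℕ) : ℝ) * t)) := by
        funext t
        simp only [Pi.add_apply, Pi.smul_apply, smul_eq_mul]
        rw [Nat.cast_sub hm0]
        push_cast
        rw [show 2 * ((m : ℝ) + 1) * t = 2 * m * t + 2 * t by ring,
          show 2 * ((m : ℝ) - 1) * t = 2 * m * t - 2 * t by ring, Real.cos_add, Real.cos_sub]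
        ring
      rw [e]
      exact Submodule.add_mem _ (Submodule.smul_mem _ _ (cosSpan_mem (by omega)))
        (Submodule.smul_mem _ _ (cosSpan_mem (by omega)))
  | zero =>
    have : (fun t : ℝ => Real.cos (2 * t) * (0 : ℝ → ℝ) t) = 0 := by funext t; simp
    rw [this]
    exact Submodule.zero_mem _
  | add f g _ _ hf hg =>
    have : (fun t : ℝ => Real.cos (2 * t) * (f + g) t) =
        (fun t => Real.cos (2 * t) * f t) + fun t => Real.cos (2 * t) * g t := by
      funext t; simp only [Pi.add_apply]; ring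
    rw [this]
    exact Submodule.add_mem _ hf hg
  | smul c f _ hf =>
    have : (fun t : ℝ => Real.cos (2 * t) * (c • f) t) = c • fun t => Real.cos (2 * t) * f t := by
      funext t; simp only [Pi.smul_apply, smul_eq_mul]; ring
    rw [this]
    exact Submodule.smul_mem _ _ hf

lemma cos_two_φ (t : ℝ) : Real.cos (2 * φ t) = 15 / 16 + 1 / 16 * Real.cos (2 * t) := by
  rw [Real.cos_two_mul, cos_φ_sq, Real.cos_two_mul, Real.cos_sq']
  ring

/-- `cos (2 l φ(t))` is an even trigonometric polynomial in `2t` of degree at most `l`. -/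
lemma cos_φ_mem (l : ℕ) : (fun t => Real.cos (2 * l * φ t)) ∈ cosSpan l := by
  induction l using Nat.strong_induction_on with
  | _ l ih =>
    rcases l with _ | _ | l
    · have h := cosSpan_mem (Nat.zero_le 0)
      simpa using h
    · have e : (fun t => Real.cos (2 * ((0 + 1 : ℕ) : ℝ) * φ t)) =
          (15 / 16 : ℝ) • (fun t : ℝ => Real.cos (2 * ((0 : ℕ) : ℝ) * t)) +
          (1 / 16 : ℝ) • fun t : ℝ => Real.cos (2 * ((1 : ℕ) : ℝ) * t) := by
        funext t
        simp only [Pi.add_apply, Pi.smul_apply, smul_eq_mul]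
        push_cast
        rw [show (2 : ℝ) * 1 * φ t = 2 * φ t by ring, cos_two_φ]
        simp
      rw [e]
      exact Submodule.add_mem _ (Submodule.smul_mem _ _ (cosSpan_mem (by omega)))
        (Submodule.smul_mem _ _ (cosSpan_mem (by omega)))
    · have h1 := ih (l + 1) (by omega)
      have h0 := ih l (by omega)
      have e : (fun t => Real.cos (2 * ((l + 1 + 1 : ℕ) : ℝ) * φ t)) =
          (15 / 8 : ℝ) • (fun t => Real.cos (2 * ((l + 1 : ℕ) : ℝ) * φ t)) +
          (1 / 8 : ℝ) • (fun t => Real.cos (2 * t) * Real.cos (2 * ((l + 1 : ℕ) : ℝ) * φ t)) +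
          (-1 : ℝ) • (fun t => Real.cos (2 * (l : ℝ) * φ t)) := by
        funext t
        simp only [Pi.add_apply, Pi.smul_apply, smul_eq_mul]
        push_cast
        have h2 : Real.cos (2 * ((l : ℝ) + 1 + 1) * φ t) =
            2 * Real.cos (2 * φ t) * Real.cos (2 * ((l : ℝ) + 1) * φ t) -
            Real.cos (2 * (l : ℝ) * φ t) := by
          rw [show 2 * ((l : ℝ) + 1 + 1) * φ t = 2 * ((l : ℝ) + 1) * φ t + 2 * φ t by ring,
            show 2 * (l : ℝ) * φ t = 2 * ((l : ℝ) + 1) * φ t - 2 * φ t by ring,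
            Real.cos_add, Real.cos_sub]
          ring
        rw [h2, cos_two_φ]
        ring
      rw [e]
      refine Submodule.add_mem _ (Submodule.add_mem _ (Submodule.smul_mem _ _ ?_)
        (Submodule.smul_mem _ _ ?_)) (Submodule.smul_mem _ _ ?_)
      · exact cosSpan_mono (by omega) h1
      · exact cosSpan_mul h1
      · exact cosSpan_mono (by omega) h0

/-- the nodes in the parameter interval -/
noncomputable def tn (K j : ℕ) : ℝ := π * (2 * j + 1) / (2 * K) - π / 2

lemma sum_cos_tn {K m : ℕ} (hm0 : 0 < m) (hm : m < K) :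
    ∑ j ∈ Finset.range K, Real.cos (2 * m * tn K j) = 0 := by
  have hK : (0 : ℝ) < K := by exact_mod_cast (hm0.trans hm)
  set a : ℝ := π * m / K with ha
  have hsin : Real.sin a ≠ 0 := by
    have hm' : (0 : ℝ) < m := by exact_mod_cast hm0
    have hmK : (m : ℝ) < K := by exact_mod_cast hm
    refine (Real.sin_pos_of_pos_of_lt_pi (by positivity) ?_).ne'
    rw [ha, div_lt_iff₀ hK]
    exact mul_lt_mul_of_pos_left hmK Real.pi_pos
  have h1 : ∀ j : ℕ, 2 * Real.sin a * Real.cos (2 * m * tn K j) =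
      (-1) ^ m * (Real.sin (a * (2 * ((j + 1 : ℕ) : ℝ))) - Real.sin (a * (2 * (j : ℝ)))) := by
    intro j
    have e1 : 2 * (m : ℝ) * tn K j = a * (2 * j + 1) - m * π := by
      unfold tn
      rw [ha]
      field_simp
    rw [e1, Real.cos_sub_nat_mul_pi]
    push_cast
    rw [show a * (2 * ((j : ℝ) + 1)) = a * (2 * j + 1) + a by ring,
      show a * (2 * (j : ℝ)) = a * (2 * j + 1) - a by ring, Real.sin_add, Real.sin_sub]
    ring
  have h2 : 2 * Real.sin a * ∑ j ∈ Finset.range K, Real.cos (2 * m * tn K j) = 0 := by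
    rw [Finset.mul_sum]
    simp only [h1]
    rw [← Finset.mul_sum, Finset.sum_range_sub (fun j : ℕ => Real.sin (a * (2 * (j : ℝ))))]
    have e2 : a * (2 * (K : ℝ)) = ((2 * m : ℕ) : ℝ) * π := by
      rw [ha]
      push_cast
      field_simp
    rw [e2, Real.sin_nat_mul_pi]
    simp
  exact (mul_eq_zero.mp h2).resolve_left (mul_ne_zero two_ne_zero hsin)

lemma continuous_cosSpan {l : ℕ} {f : ℝ → ℝ} (hf : f ∈ cosSpan l) : Continuous f := by
  induction hf using Submodule.span_induction with
  | mem f hf =>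
    obtain ⟨m, -, rfl⟩ := hf
    fun_prop
  | zero => exact continuous_const
  | add f g _ _ hf hg => exact hf.add hg
  | smul c f _ hf => exact hf.const_smul c

/-- The midpoint rule with `K > l` nodes is exact on `cosSpan l`. -/
lemma midpoint_exact {K l : ℕ} (hl : l < K) {f : ℝ → ℝ} (hf : f ∈ cosSpan l) :
    ∫ t in (-(π / 2))..(π / 2), f t = π / K * ∑ j ∈ Finset.range K, f (tn K j) := by
  have hK : (0 : ℝ) < K := by exact_mod_cast (Nat.zero_le l).trans_lt hl
  have key : Continuous f ∧
      ∫ t in (-(π / 2))..(π / 2), f t = π / K * ∑ j ∈ Finset.range K, f (tn K j) := by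
    induction hf using Submodule.span_induction with
    | mem f hf =>
      obtain ⟨m, hm, rfl⟩ := hf
      refine ⟨by fun_prop, ?_⟩
      rcases Nat.eq_zero_or_pos m with rfl | hm0
      · simp
        field_simp
      · rw [sum_cos_tn hm0 (by omega), mul_zero]
        have hm' : (2 * (m : ℝ)) ≠ 0 := by positivity
        rw [intervalIntegral.integral_comp_mul_left (fun t => Real.cos t) hm', integral_cos,
          show 2 * (m : ℝ) * (π / 2) = m * π by ring,
          show 2 * (m : ℝ) * (-(π / 2)) = -(m * π) by ring, Real.sin_neg, Real.sin_nat_mul_pi]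
        simp
    | zero => exact ⟨continuous_const, by simp⟩
    | add f g _ _ hf hg =>
      refine ⟨hf.1.add hg.1, ?_⟩
      simp only [Pi.add_apply]
      rw [intervalIntegral.integral_add (hf.1.intervalIntegrable _ _)
        (hg.1.intervalIntegrable _ _), hf.2, hg.2, Finset.sum_add_distrib]
      ring
    | smul c f _ hf =>
      refine ⟨hf.1.const_smul c, ?_⟩
      simp only [Pi.smul_apply, smul_eq_mul]
      rw [intervalIntegral.integral_const_mul, hf.2, ← Finset.mul_sum]
      ring
  exact key.2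

lemma φ_neg (t : ℝ) : φ (-t) = -φ t := by
  unfold φ
  rw [Real.sin_neg, neg_div, Real.arcsin_neg]

/-- The functional `p ↦ p(φ(t)) + p(φ(t) + π)` is integrated exactly by the midpoint rule. -/
lemma exact_W₁ {n K : ℕ} (hK : n < 2 * K) {p : ℝ → ℝ} (hp : p ∈ trigPoly n) :
    ∫ t in (-(π / 2))..(π / 2), (p (φ t) + p (φ t + π)) =
      π / K * ∑ j ∈ Finset.range K, (p (φ (tn K j)) + p (φ (tn K j) + π)) := by
  have hK0 : 0 < K := by omega
  have hKr : (0 : ℝ) < K := by exact_mod_cast hK0
  have key : Continuous p ∧ ∫ t in (-(π / 2))..(π / 2), (p (φ t) + p (φ t + π)) =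
      π / K * ∑ j ∈ Finset.range K, (p (φ (tn K j)) + p (φ (tn K j) + π)) := by
    induction hp using Submodule.span_induction with
    | mem f hf =>
      obtain ⟨k, hk, rfl | rfl⟩ := hf
      · refine ⟨by fun_prop, ?_⟩
        rcases Nat.even_or_odd' k with ⟨l, rfl | rfl⟩
        · have e : ∀ t, Real.cos (((2 * l : ℕ) : ℝ) * φ t) + Real.cos (((2 * l : ℕ) : ℝ) * (φ t + π)) =
              2 * Real.cos (2 * l * φ t) := by
            intro t
            have : ((2 * l : ℕ) : ℝ) * (φ t + π) = 2 * l * φ t + (l : ℝ) * (2 * π) := by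
              push_cast; ring
            rw [this, Real.cos_add_nat_mul_two_pi]
            push_cast
            ring
          simp only [e]
          rw [intervalIntegral.integral_const_mul, midpoint_exact (K := K) (l := l) (by omega) (cos_φ_mem l),
            ← Finset.mul_sum]
          ring
        · have e : ∀ t, Real.cos (((2 * l + 1 : ℕ) : ℝ) * φ t) +
              Real.cos (((2 * l + 1 : ℕ) : ℝ) * (φ t + π)) = 0 := by
            intro t
            have : ((2 * l + 1 : ℕ) : ℝ) * (φ t + π) =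
                (((2 * l + 1 : ℕ) : ℝ) * φ t + π) + (l : ℝ) * (2 * π) := by
              push_cast; ring
            rw [this, Real.cos_add_nat_mul_two_pi, Real.cos_add_pi]
            ring
          simp only [e]
          simp
      · refine ⟨by fun_prop, ?_⟩
        rcases Nat.even_or_odd' k with ⟨l, rfl | rfl⟩
        · have e : ∀ t, Real.sin (((2 * l : ℕ) : ℝ) * φ t) + Real.sin (((2 * l : ℕ) : ℝ) * (φ t + π)) =
              2 * Real.sin (2 * l * φ t) := by
            intro t
            have : ((2 * l : ℕ) : ℝ) * (φ t + π) = 2 * l * φ t + (l : ℝ) * (2 * π) := by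
              push_cast; ring
            rw [this, Real.sin_add_nat_mul_two_pi]
            push_cast
            ring
          simp only [e]
          have hodd : ∀ t, Real.sin (2 * l * φ (-t)) = -Real.sin (2 * l * φ t) := by
            intro t
            rw [φ_neg, mul_neg, Real.sin_neg]
          have h1 : ∫ t in (-(π / 2))..(π / 2), 2 * Real.sin (2 * l * φ t) = 0 := by
            have h2 : ∫ t in (-(π / 2))..(π / 2), 2 * Real.sin (2 * l * φ (-t)) =
                ∫ t in (-(π / 2))..(π / 2), 2 * Real.sin (2 * l * φ t) := by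
              rw [intervalIntegral.integral_comp_neg (fun t => 2 * Real.sin (2 * l * φ t))]
              simp
            simp only [hodd, mul_neg] at h2
            rw [intervalIntegral.integral_neg] at h2
            linarith
          have h3 : ∑ j ∈ Finset.range K, 2 * Real.sin (2 * l * φ (tn K j)) = 0 := by
            have h4 := Finset.sum_range_reflect (fun j => 2 * Real.sin (2 * l * φ (tn K j))) K
            have h5 : ∀ j ∈ Finset.range K, 2 * Real.sin (2 * l * φ (tn K (K - 1 - j))) =
                -(2 * Real.sin (2 * l * φ (tn K j))) := by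
              intro j hj
              have hj' : j < K := Finset.mem_range.mp hj
              have : tn K (K - 1 - j) = -tn K j := by
                unfold tn
                rw [Nat.cast_sub (by omega), Nat.cast_sub (by omega)]
                push_cast
                field_simp
                ring
              rw [this, hodd]
              ring
            rw [Finset.sum_congr rfl h5, Finset.sum_neg_distrib] at h4
            linarith
          rw [h1, h3, mul_zero]
        · have e : ∀ t, Real.sin (((2 * l + 1 : ℕ) : ℝ) * φ t) +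
              Real.sin (((2 * l + 1 : ℕ) : ℝ) * (φ t + π)) = 0 := by
            intro t
            have : ((2 * l + 1 : ℕ) : ℝ) * (φ t + π) =
                (((2 * l + 1 : ℕ) : ℝ) * φ t + π) + (l : ℝ) * (2 * π) := by
              push_cast; ring
            rw [this, Real.sin_add_nat_mul_two_pi, Real.sin_add_pi]
            ring
          simp only [e]
          simp
    | zero => exact ⟨continuous_const, by simp⟩
    | add f g _ _ hf hg =>
      refine ⟨hf.1.add hg.1, ?_⟩
      have hcf : Continuous fun t => f (φ t) + f (φ t + π) :=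
        (hf.1.comp continuous_φ).add (hf.1.comp (continuous_φ.add continuous_const))
      have hcg : Continuous fun t => g (φ t) + g (φ t + π) :=
        (hg.1.comp continuous_φ).add (hg.1.comp (continuous_φ.add continuous_const))
      have e : ∀ t, (f + g) (φ t) + (f + g) (φ t + π) =
          (f (φ t) + f (φ t + π)) + (g (φ t) + g (φ t + π)) := by
        intro t; simp only [Pi.add_apply]; ring
      simp only [e]
      rw [intervalIntegral.integral_add (hcf.intervalIntegrable _ _)
        (hcg.intervalIntegrable _ _), hf.2, hg.2, ← mul_add, ← Finset.sum_add_distrib]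
    | smul c f _ hf =>
      refine ⟨hf.1.const_smul c, ?_⟩
      have e : ∀ t, (c • f) (φ t) + (c • f) (φ t + π) = c * (f (φ t) + f (φ t + π)) := by
        intro t; simp only [Pi.smul_apply, smul_eq_mul]; ring
      simp only [e]
      rw [intervalIntegral.integral_const_mul, hf.2, ← Finset.mul_sum]
      ring
  exact key.2

end design

section weights

/-- the weight `a A(θ) + b A(θ + π)` -/
noncomputable def Wt (a b θ : ℝ) : ℝ := a * A θ + b * A (θ + π)

lemma integral_Wt (a b : ℝ) {p : ℝ → ℝ} (hc : Continuous p) (hp : Function.Periodic p (2 * π)) :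
    ∫ θ in (-π)..π, p θ * Wt a b θ =
      a * (∫ t in (-(π / 2))..(π / 2), p (φ t)) + b * ∫ t in (-(π / 2))..(π / 2), p (φ t + π) := by
  unfold Wt
  have e : ∀ θ, p θ * (a * A θ + b * A (θ + π)) = a * (p θ * A θ) + b * (p θ * A (θ + π)) := by
    intro θ; ring
  simp only [e]
  rw [intervalIntegral.integral_add ((intervalIntegrable_A hc).const_mul a)
    ((intervalIntegrable_A_shift hc hp).const_mul b), intervalIntegral.integral_const_mul,
    intervalIntegral.integral_const_mul, integral_A, integral_A_shift hp]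

lemma mass_Wt (a b : ℝ) : ∫ θ in (-π)..π, Wt a b θ = (a + b) * π := by
  have h := integral_Wt a b (p := fun _ => 1) continuous_const (fun _ => rfl)
  simp only [one_mul, intervalIntegral.integral_const, smul_eq_mul, mul_one] at h
  rw [h]
  ring

lemma isWeight_Wt {a b : ℝ} (ha : 0 < a) (hb : 0 < b) : IsWeight (Wt a b) where
  measurable := (A_measurable.const_mul a).add ((A_measurable.comp (measurable_add_const π)).const_mul b)
  periodic := by
    intro θ
    unfold Wt
    rw [A_periodic, show θ + 2 * π + π = θ + π + 2 * π by ring, A_periodic]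
  nonneg θ := add_nonneg (mul_nonneg ha.le (A_nonneg _)) (mul_nonneg hb.le (A_nonneg _))
  integrable := by
    have h1 := (intervalIntegrable_A (g := fun _ => a) continuous_const).add
      (intervalIntegrable_A_shift (g := fun _ => b) continuous_const (fun _ => rfl))
    exact h1
  pos := by
    rw [mass_Wt]
    have := Real.pi_pos
    positivity

/-- `N(n) ≤ n + 2` for the symmetric weights. -/
lemma quadrature_sym {a : ℝ} (n : ℕ) : HasQuadrature (Wt a a) n (2 * (n / 2 + 1)) := by
  set K := n / 2 + 1 with hK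
  have hnK : n < 2 * K := by omega
  refine hasQuadrature_of (ι := Fin K × Bool) (by simp [mul_comm])
    (fun i => if i.2 then φ (tn K i.1) else φ (tn K i.1) + π) (a * (π / K)) fun p hp => ?_
  rw [integral_Wt a a (continuous_of_mem hp) (periodic_of_mem hp)]
  have hc := continuous_of_mem hp
  have h1 : (∫ t in (-(π / 2))..(π / 2), p (φ t)) + ∫ t in (-(π / 2))..(π / 2), p (φ t + π) =
      ∫ t in (-(π / 2))..(π / 2), (p (φ t) + p (φ t + π)) := by
    rw [intervalIntegral.integral_add]
    · exact (hc.comp continuous_φ).intervalIntegrable _ _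
    · exact (hc.comp (continuous_φ.add continuous_const)).intervalIntegrable _ _
  rw [← mul_add, h1, exact_W₁ hnK hp, Fintype.sum_prod_type]
  simp only [Fintype.sum_bool, if_true, Bool.false_eq_true, if_false]
  rw [Finset.sum_range (fun j => p (φ (tn K j)) + p (φ (tn K j) + π))]
  ring

end weights

section lower

/-- the integral `∫₀ˣ (1 - t²)^m dt` -/
noncomputable def I (m : ℕ) (x : ℝ) : ℝ := ∫ t in (0 : ℝ)..x, (1 - t ^ 2) ^ m

/-- `I m` as a polynomial -/
noncomputable def Ipoly (m : ℕ) : Polynomial ℝ :=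
  ∑ k ∈ Finset.range (m + 1), Polynomial.C ((-1) ^ k * (m.choose k : ℝ) / (2 * k + 1)) *
    Polynomial.X ^ (2 * k + 1)

lemma Ipoly_degree (m : ℕ) : (Ipoly m).natDegree ≤ 2 * m + 1 := by
  unfold Ipoly
  refine Polynomial.natDegree_sum_le_of_forall_le _ _ fun k hk => ?_
  refine (Polynomial.natDegree_C_mul_X_pow_le _ _).trans ?_
  have := Finset.mem_range.mp hk
  omega

lemma Ipoly_eval (m : ℕ) (x : ℝ) : (Ipoly m).eval x = I m x := by
  unfold Ipoly I
  rw [Polynomial.eval_finsetSum]
  have e : ∀ t : ℝ, (1 - t ^ 2) ^ m =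
      ∑ k ∈ Finset.range (m + 1), (-1) ^ k * (m.choose k : ℝ) * t ^ (2 * k) := by
    intro t
    rw [show 1 - t ^ 2 = (-t ^ 2) + 1 by ring, add_pow]
    refine Finset.sum_congr rfl fun k _ => ?_
    rw [one_pow, mul_one, neg_pow, ← pow_mul]
    ring
  simp only [e]
  rw [intervalIntegral.integral_finsetSum fun k _ =>
    (Continuous.intervalIntegrable (by fun_prop) _ _)]
  refine Finset.sum_congr rfl fun k _ => ?_
  rw [intervalIntegral.integral_const_mul, integral_pow]
  simp only [Polynomial.eval_mul, Polynomial.eval_C, Polynomial.eval_pow, Polynomial.eval_X]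
  have : (2 * (k : ℝ) + 1) ≠ 0 := by positivity
  push_cast
  field_simp
  ring

lemma I_neg (m : ℕ) (x : ℝ) : I m (-x) = -I m x := by
  unfold I
  have h := intervalIntegral.integral_comp_neg (a := 0) (b := x) (fun t : ℝ => (1 - t ^ 2) ^ m)
  simp only [neg_sq, neg_zero] at h
  rw [intervalIntegral.integral_symm, ← h]

lemma I_one_ge (m : ℕ) : 1 / ((m : ℝ) + 1) ≤ I m 1 := by
  have h1 : ∫ t in (0 : ℝ)..1, (1 - t) ^ m = 1 / ((m : ℝ) + 1) := by
    rw [intervalIntegral.integral_comp_sub_left (fun t => t ^ m) 1]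
    simp
  rw [← h1]
  unfold I
  refine intervalIntegral.integral_mono_on (by norm_num)
    (Continuous.intervalIntegrable (by fun_prop) _ _)
    (Continuous.intervalIntegrable (by fun_prop) _ _) fun t ht => ?_
  refine pow_le_pow_left₀ (by linarith [ht.2]) ?_ m
  nlinarith [ht.1, ht.2]

lemma I_one_sub (m : ℕ) {x : ℝ} (hx0 : 0 ≤ x) (hx1 : x ≤ 1) (hx : 3 / 4 ≤ x ^ 2) :
    |I m x - I m 1| ≤ (1 / 4) ^ m := by
  have h1 : I m 1 - I m x = ∫ t in x..1, (1 - t ^ 2) ^ m := by
    unfold I
    rw [intervalIntegral.integral_interval_sub_left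
      (Continuous.intervalIntegrable (by fun_prop) _ _)
      (Continuous.intervalIntegrable (by fun_prop) _ _)]
  have h2 : ∀ t ∈ Icc x 1, 0 ≤ 1 - t ^ 2 ∧ 1 - t ^ 2 ≤ 1 / 4 := by
    intro t ht
    constructor
    · nlinarith [ht.1, ht.2]
    · nlinarith [ht.1, ht.2]
  have h3 : 0 ≤ ∫ t in x..1, (1 - t ^ 2) ^ m :=
    intervalIntegral.integral_nonneg hx1 fun t ht => pow_nonneg (h2 t ht).1 m
  have h4 : ∫ t in x..1, (1 - t ^ 2) ^ m ≤ ∫ t in x..1, (1 / 4 : ℝ) ^ m := by
    refine intervalIntegral.integral_mono_on hx1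
      (Continuous.intervalIntegrable (by fun_prop) _ _)
      (Continuous.intervalIntegrable (by fun_prop) _ _) fun t ht => ?_
    exact pow_le_pow_left₀ (h2 t ht).1 (h2 t ht).2 m
  rw [intervalIntegral.integral_const, smul_eq_mul] at h4
  have h5 : (1 - x) * (1 / 4 : ℝ) ^ m ≤ 1 * (1 / 4) ^ m :=
    mul_le_mul_of_nonneg_right (by linarith) (by positivity)
  rw [abs_sub_comm, h1, abs_of_nonneg h3]
  linarith

/-- the polynomial approximation of the sign -/
noncomputable def R (m : ℕ) (x : ℝ) : ℝ := I m x / I m 1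

lemma I_one_pos (m : ℕ) : 0 < I m 1 := lt_of_lt_of_le (by positivity) (I_one_ge m)

lemma R_pos (m : ℕ) {x : ℝ} (hx0 : 0 ≤ x) (hx1 : x ≤ 1) (hx : 3 / 4 ≤ x ^ 2) :
    |R m x - 1| ≤ (m + 1) * (1 / 4) ^ m := by
  have h0 := I_one_pos m
  have h1 := I_one_sub m hx0 hx1 hx
  have h2 := I_one_ge m
  have e : R m x - 1 = (I m x - I m 1) / I m 1 := by unfold R; field_simp
  rw [e, abs_div, abs_of_pos h0, div_le_iff₀ h0]
  have h3 : 1 ≤ (m + 1) * I m 1 := by
    rw [div_le_iff₀ (by positivity)] at h2
    linarith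
  calc |I m x - I m 1| ≤ (1 / 4) ^ m * 1 := by linarith
    _ ≤ (1 / 4) ^ m * ((m + 1) * I m 1) := mul_le_mul_of_nonneg_left h3 (by positivity)
    _ = _ := by ring

lemma R_neg (m : ℕ) {x : ℝ} (hx0 : x ≤ 0) (hx1 : -1 ≤ x) (hx : 3 / 4 ≤ x ^ 2) :
    |R m x + 1| ≤ (m + 1) * (1 / 4) ^ m := by
  have h := R_pos m (x := -x) (by linarith) (by linarith) (by rwa [neg_sq])
  have e : R m (-x) = -R m x := by unfold R; rw [I_neg]; ring
  rw [e] at h
  rw [show R m x + 1 = -(-R m x - 1) by ring, abs_neg]
  exact h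

lemma R_mem (m : ℕ) : (fun θ => R m (Real.cos θ)) ∈ trigPoly (2 * m + 1) := by
  have h := Submodule.smul_mem _ ((I m 1)⁻¹) (poly_cos_mem (Ipoly m) (Ipoly_degree m))
  have e : (fun θ => R m (Real.cos θ)) =
      (I m 1)⁻¹ • fun θ => (Ipoly m).eval (Real.cos θ) := by
    funext θ
    simp only [Pi.smul_apply, smul_eq_mul, Ipoly_eval, R]
    ring
  rw [e]
  exact h

lemma S_mem (m : ℕ) : (fun θ => (16 * (1 - Real.cos θ ^ 2)) ^ m) ∈ trigPoly (2 * m + 1) := by
  have hdeg : ((Polynomial.C (16 : ℝ) * (1 - Polynomial.X ^ 2)) ^ m).natDegree ≤ 2 * m + 1 := by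
    refine (Polynomial.natDegree_pow_le).trans ?_
    have h1 : (Polynomial.C (16 : ℝ) * (1 - Polynomial.X ^ 2)).natDegree ≤ 2 := by
      refine (Polynomial.natDegree_C_mul_le _ _).trans ?_
      refine (Polynomial.natDegree_sub_le _ _).trans ?_
      simp
    nlinarith
  have h := poly_cos_mem _ hdeg
  simpa using h

/-- Every quadrature of degree `2m + 1` for the asymmetric weight has exponentially many nodes. -/
lemma lower_bound {m N : ℕ} (h : HasQuadrature (Wt 1 √2) (2 * m + 1) N) :
    (4 : ℝ) ^ m ≤ 14 * (m + 1) * N ^ 2 := by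
  obtain ⟨x, w, -, hq⟩ := h
  have hπ := Real.pi_pos
  have hs2 : 0 < √2 := by positivity
  have hs2sq : √2 * √2 = 2 := Real.mul_self_sqrt (by norm_num)
  -- total mass
  have e0 := hq _ (one_mem _)
  simp only [one_mul, Finset.sum_const, Finset.card_univ, Fintype.card_fin, nsmul_eq_mul,
    mul_one] at e0
  rw [mass_Wt] at e0
  have hmass : 0 < (1 + √2) * π := by positivity
  have hN : 0 < (N : ℝ) := by
    rcases Nat.eq_zero_or_pos N with h | h
    · rw [h, Nat.cast_zero, mul_zero] at e0
      linarith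
    · exact_mod_cast h
  have hw : 0 < w := by
    by_contra hcon
    push Not at hcon
    have : w * N ≤ 0 := mul_nonpos_of_nonpos_of_nonneg hcon hN.le
    linarith
  by_cases hcase : ∃ i, 1 / 4 ≤ Real.sin (x i) ^ 2
  · -- some node is far from the support
    obtain ⟨i, hi⟩ := hcase
    have e1 := hq _ (S_mem m)
    rw [integral_Wt 1 √2 (continuous_of_mem (S_mem m)) (periodic_of_mem (S_mem m))] at e1
    have hle1 : ∫ t in (-(π / 2))..(π / 2), (16 * (1 - Real.cos (φ t) ^ 2)) ^ m ≤ π := by
      have : ∫ t in (-(π / 2))..(π / 2), (16 * (1 - Real.cos (φ t) ^ 2)) ^ m ≤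
          ∫ t in (-(π / 2))..(π / 2), (1 : ℝ) := by
        refine intervalIntegral.integral_mono_on (by linarith) ?_
          (continuous_const.intervalIntegrable _ _) fun t _ => ?_
        · refine Continuous.intervalIntegrable ?_ _ _
          exact (continuous_const.mul (continuous_const.sub
            ((Real.continuous_cos.comp continuous_φ).pow 2))).pow m
        · rw [cos_φ_sq]
          refine pow_le_one₀ ?_ ?_
          · nlinarith [sq_nonneg (Real.sin t)]
          · nlinarith [Real.sin_sq_le_one t]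
      refine this.trans (le_of_eq ?_)
      rw [intervalIntegral.integral_const, smul_eq_mul]
      ring
    have hle2 : ∫ t in (-(π / 2))..(π / 2), (16 * (1 - Real.cos (φ t + π) ^ 2)) ^ m ≤ π := by
      simp only [Real.cos_add_pi, neg_sq]
      exact hle1
    have hsum : ∑ i, (16 * (1 - Real.cos (x i) ^ 2)) ^ m ≤ (N : ℝ) := by
      have : w * ∑ i, (16 * (1 - Real.cos (x i) ^ 2)) ^ m ≤ w * (N : ℝ) := by
        rw [← e1, ← e0]
        have := mul_le_mul_of_nonneg_left hle2 hs2.le
        linarith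
      exact le_of_mul_le_mul_left this hw
    have hterm : (4 : ℝ) ^ m ≤ (16 * (1 - Real.cos (x i) ^ 2)) ^ m := by
      refine pow_le_pow_left₀ (by norm_num) ?_ m
      have := Real.sin_sq_add_cos_sq (x i)
      linarith
    have hsingle : (16 * (1 - Real.cos (x i) ^ 2)) ^ m ≤
        ∑ i, (16 * (1 - Real.cos (x i) ^ 2)) ^ m :=
      Finset.single_le_sum (f := fun i => (16 * (1 - Real.cos (x i) ^ 2)) ^ m)
        (fun j _ => pow_nonneg (by nlinarith [Real.cos_sq_le_one (x j)]) m) (Finset.mem_univ i)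
    have h4N : (4 : ℝ) ^ m ≤ N := hterm.trans (hsingle.trans hsum)
    have hN1 : (1 : ℝ) ≤ N := by
      have : 0 < N := by exact_mod_cast hN
      exact_mod_cast this
    have hm0 : (0 : ℝ) ≤ m := by positivity
    calc (4 : ℝ) ^ m ≤ (N : ℝ) := h4N
      _ = 1 * (N : ℝ) := (one_mul _).symm
      _ ≤ (N : ℝ) * (N : ℝ) := mul_le_mul_of_nonneg_right hN1 hN.le
      _ = 1 * (N : ℝ) ^ 2 := by ring
      _ ≤ 14 * (m + 1) * (N : ℝ) ^ 2 := mul_le_mul_of_nonneg_right (by linarith) (sq_nonneg _)
  · push Not at hcase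
    -- all nodes are near the support
    have hcos : ∀ i, 3 / 4 ≤ Real.cos (x i) ^ 2 := fun i => by
      have := Real.sin_sq_add_cos_sq (x i)
      have := hcase i
      linarith
    set e : ℝ := (m + 1) * (1 / 4) ^ m with he
    have he0 : 0 < e := by positivity
    have e2 := hq _ (R_mem m)
    rw [integral_Wt 1 √2 (continuous_of_mem (R_mem m)) (periodic_of_mem (R_mem m))] at e2
    have hRc : Continuous fun t => R m (Real.cos (φ t)) :=
      (continuous_of_mem (R_mem m)).comp continuous_φ
    have hRc' : Continuous fun t => R m (Real.cos (φ t + π)) :=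
      (continuous_of_mem (R_mem m)).comp (continuous_φ.add continuous_const)
    have hcφ : ∀ t, 3 / 4 ≤ Real.cos (φ t) ^ 2 := by
      intro t
      rw [cos_φ_sq]
      nlinarith [Real.sin_sq_le_one t]
    have hi1 : |(∫ t in (-(π / 2))..(π / 2), R m (Real.cos (φ t))) - π| ≤ e * π := by
      have h1 : (∫ t in (-(π / 2))..(π / 2), R m (Real.cos (φ t))) - π =
          ∫ t in (-(π / 2))..(π / 2), (R m (Real.cos (φ t)) - 1) := by
        rw [intervalIntegral.integral_sub (hRc.intervalIntegrable _ _)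
          (continuous_const.intervalIntegrable _ _), intervalIntegral.integral_const, smul_eq_mul]
        ring
      rw [h1]
      have h2 := intervalIntegral.norm_integral_le_of_norm_le_const (a := -(π / 2)) (b := π / 2)
        (f := fun t => R m (Real.cos (φ t)) - 1) (C := e) (fun t _ => by
          rw [Real.norm_eq_abs]
          exact R_pos m (cos_φ_pos t).le (Real.cos_le_one _) (hcφ t))
      rw [Real.norm_eq_abs] at h2
      refine h2.trans (le_of_eq ?_)
      rw [show π / 2 - -(π / 2) = π by ring, abs_of_pos hπ]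
    have hi2 : |(∫ t in (-(π / 2))..(π / 2), R m (Real.cos (φ t + π))) + π| ≤ e * π := by
      have h1 : (∫ t in (-(π / 2))..(π / 2), R m (Real.cos (φ t + π))) + π =
          ∫ t in (-(π / 2))..(π / 2), (R m (Real.cos (φ t + π)) + 1) := by
        rw [intervalIntegral.integral_add (hRc'.intervalIntegrable _ _)
          (continuous_const.intervalIntegrable _ _), intervalIntegral.integral_const, smul_eq_mul]
        ring
      rw [h1]
      have h2 := intervalIntegral.norm_integral_le_of_norm_le_const (a := -(π / 2)) (b := π / 2)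
        (f := fun t => R m (Real.cos (φ t + π)) + 1) (C := e) (fun t _ => by
          rw [Real.norm_eq_abs]
          refine R_neg m ?_ (Real.neg_one_le_cos _) ?_
          · rw [Real.cos_add_pi]
            linarith [cos_φ_pos t]
          · rw [Real.cos_add_pi, neg_sq]
            exact hcφ t)
      rw [Real.norm_eq_abs] at h2
      refine h2.trans (le_of_eq ?_)
      rw [show π / 2 - -(π / 2) = π by ring, abs_of_pos hπ]
    -- the signs
    classical
    set σ : Fin N → ℤ := fun i => if 0 ≤ Real.cos (x i) then 1 else -1 with hσ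
    have hσ1 : ∀ i, |R m (Real.cos (x i)) - σ i| ≤ e := by
      intro i
      simp only [hσ]
      split_ifs with h
      · push_cast
        exact R_pos m h (Real.cos_le_one _) (hcos i)
      · push Not at h
        push_cast
        rw [sub_neg_eq_add]
        exact R_neg m h.le (Real.neg_one_le_cos _) (hcos i)
    have hs1 : |∑ i, R m (Real.cos (x i)) - ∑ i, (σ i : ℝ)| ≤ N * e := by
      rw [← Finset.sum_sub_distrib]
      refine (Finset.abs_sum_le_sum_abs _ _).trans ?_
      refine (Finset.sum_le_sum fun i _ => hσ1 i).trans (le_of_eq ?_)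
      simp
    have hσabs : |∑ i, (σ i : ℝ)| ≤ N := by
      refine (Finset.abs_sum_le_sum_abs _ _).trans ?_
      refine (Finset.sum_le_sum (g := fun _ => (1 : ℝ)) fun i _ => ?_).trans (le_of_eq (by simp))
      simp only [hσ]
      split_ifs <;> norm_num
    set Sσ : ℝ := ∑ i, (σ i : ℝ) with hSσ
    set I1 := ∫ t in (-(π / 2))..(π / 2), R m (Real.cos (φ t)) with hI1
    set I2 := ∫ t in (-(π / 2))..(π / 2), R m (Real.cos (φ t + π)) with hI2
    -- `|Sσ - N (2√2 - 3)| ≤ 2 N e`
    have hkey : |Sσ - N * (2 * √2 - 3)| ≤ 2 * N * e := by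
      have h1 : |w * Sσ - (1 - √2) * π| ≤ 2 * ((1 + √2) * π) * e := by
        have a1 := abs_le.mp hi1
        have a2 := abs_le.mp hi2
        have a3 := abs_le.mp hs1
        have b1 : w * (∑ i, R m (Real.cos (x i)) - Sσ) ≤ w * (N * e) :=
          mul_le_mul_of_nonneg_left a3.2 hw.le
        have b2 : w * -(N * e) ≤ w * (∑ i, R m (Real.cos (x i)) - Sσ) :=
          mul_le_mul_of_nonneg_left a3.1 hw.le
        have c1 : √2 * (I2 + π) ≤ √2 * (e * π) := mul_le_mul_of_nonneg_left a2.2 hs2.le
        have c2 : √2 * -(e * π) ≤ √2 * (I2 + π) := mul_le_mul_of_nonneg_left a2.1 hs2.le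
        have d1 : w * (N * e) = (1 + √2) * π * e := by rw [← mul_assoc, ← e0]
        rw [abs_le]
        constructor <;> nlinarith [a1.1, a1.2]
      have h2 : w * Sσ - (1 - √2) * π = w * (Sσ - N * (2 * √2 - 3)) := by
        have : w * (N * (2 * √2 - 3)) = (1 - √2) * π := by
          rw [← mul_assoc, ← e0]
          nlinarith
        linarith
      rw [h2, abs_mul, abs_of_pos hw, e0] at h1
      have h3 : w * |Sσ - N * (2 * √2 - 3)| ≤ w * (2 * N * e) := by linarith
      exact le_of_mul_le_mul_left h3 hw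
    -- Liouville
    set a : ℤ := ∑ i, σ i + 3 * N with ha
    have ha' : (a : ℝ) = Sσ + 3 * N := by
      rw [ha, hSσ]
      push_cast
      ring
    have hd : |2 * √2 * N - a| ≤ 2 * N * e := by
      rw [ha', abs_sub_comm]
      rw [show Sσ + 3 * N - 2 * √2 * N = Sσ - N * (2 * √2 - 3) by ring]
      exact hkey
    have hne : (8 * (N : ℤ) ^ 2 - a ^ 2) ≠ 0 := by
      intro hzero
      have h1 : 8 * (N : ℝ) ^ 2 - (a : ℝ) ^ 2 = 0 := by exact_mod_cast hzero
      have h2 : (2 * √2 * N) ^ 2 = (a : ℝ) ^ 2 := by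
        have : (2 * √2 * N) ^ 2 = 4 * (√2 * √2) * N ^ 2 := by ring
        rw [this, hs2sq]
        linarith
      have h3 : 2 * √2 * N = |(a : ℝ)| := by
        rw [← sq_abs (a : ℝ)] at h2
        exact (pow_left_inj₀ (by positivity) (abs_nonneg _) two_ne_zero).mp h2
      have h4 : √2 = |(a : ℝ)| / (2 * N) := by
        rw [eq_div_iff (by positivity), ← h3]
        ring
      refine irrational_sqrt_two ⟨((|a| : ℤ) : ℚ) / (2 * (N : ℚ)), ?_⟩
      rw [h4]
      push_cast
      rfl
    have hge : (1 : ℝ) ≤ |8 * (N : ℝ) ^ 2 - (a : ℝ) ^ 2| := by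
      have : (1 : ℤ) ≤ |8 * (N : ℤ) ^ 2 - a ^ 2| := Int.one_le_abs hne
      exact_mod_cast this
    have hfac : |8 * (N : ℝ) ^ 2 - (a : ℝ) ^ 2| = |2 * √2 * N - a| * |2 * √2 * N + a| := by
      rw [← abs_mul]
      congr 1
      have : (2 * √2 * N - a) * (2 * √2 * N + a) = 4 * (√2 * √2) * N ^ 2 - (a : ℝ) ^ 2 := by ring
      rw [this, hs2sq]
      ring
    have hsum : |2 * √2 * N + a| ≤ 7 * N := by
      have h1 : √2 ≤ 3 / 2 := by
        rw [Real.sqrt_le_left (by norm_num)]
        norm_num
      have h2 := abs_le.mp hσabs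
      rw [ha', abs_le]
      constructor <;> nlinarith [h2.1, h2.2]
    have hfinal : 1 ≤ 2 * N * e * (7 * N) := by
      have k1 : (1 : ℝ) ≤ |2 * √2 * N - a| * |2 * √2 * N + a| := by rw [← hfac]; exact hge
      have k2 : |2 * √2 * (N : ℝ) - a| * |2 * √2 * (N : ℝ) + a| ≤ 2 * N * e * (7 * N) :=
        mul_le_mul hd hsum (abs_nonneg _) (by positivity)
      exact k1.trans k2
    have h4m : (4 : ℝ) ^ m * (1 / 4) ^ m = 1 := by
      rw [← mul_pow]
      norm_num
    calc (4 : ℝ) ^ m = 4 ^ m * 1 := (mul_one _).symm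
      _ ≤ 4 ^ m * (2 * N * e * (7 * N)) := mul_le_mul_of_nonneg_left hfinal (by positivity)
      _ = 14 * (m + 1) * N ^ 2 * (4 ^ m * (1 / 4) ^ m) := by
        rw [he]
        generalize (1 / 4 : ℝ) ^ m = q
        generalize (4 : ℝ) ^ m = q'
        ring
      _ = _ := by rw [h4m, mul_one]

end lower

/-- Local agreement. -/
lemma local_agree (x : ℝ) : ∃ U : Set ℝ, IsOpen U ∧ x ∈ U ∧
    ((∀ y ∈ U, Wt 1 √2 y = Wt 1 1 y) ∨ ∀ y ∈ U, Wt 1 √2 y = Wt √2 √2 y) := by
  have key : ∀ y, A y ≠ 0 → 1 / 2 < Real.cos y := by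
    intro y hy
    unfold A at hy
    split_ifs at hy with h
    · have h1 : Real.sin y ^ 2 < (1 / 4) ^ 2 := by
        rw [← sq_abs]
        exact pow_lt_pow_left₀ h.1 (abs_nonneg _) two_ne_zero
      have h2 := Real.sin_sq_add_cos_sq y
      nlinarith [h.2]
    · exact absurd rfl hy
  rcases lt_or_ge (Real.cos x) 0 with h | h
  · refine ⟨{y | Real.cos y < 1 / 2}, isOpen_lt Real.continuous_cos continuous_const, ?_, Or.inr ?_⟩
    · show Real.cos x < 1 / 2
      linarith
    · intro y hy
      have hy' : Real.cos y < 1 / 2 := hy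
      have : A y = 0 := by
        by_contra hA
        linarith [key y hA]
      unfold Wt
      rw [this, mul_zero, mul_zero]
  · refine ⟨{y | -(1 / 2) < Real.cos y}, isOpen_lt continuous_const Real.continuous_cos, ?_,
      Or.inl ?_⟩
    · show -(1 / 2) < Real.cos x
      linarith
    · intro y hy
      have hy' : -(1 / 2) < Real.cos y := hy
      have : A (y + π) = 0 := by
        by_contra hA
        have := key (y + π) hA
        rw [Real.cos_add_pi] at this
        linarith
      unfold Wt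
      rw [this, mul_zero, mul_zero]

lemma exists_large (M : ℕ) : ∃ m : ℕ, 14 * ((m : ℝ) + 1) * (M * (2 * m + 3)) ^ 2 < 4 ^ m := by
  have h : Filter.Tendsto (fun m : ℕ => (m : ℝ) ^ 3 / 4 ^ m) Filter.atTop (nhds 0) :=
    tendsto_pow_const_div_const_pow_of_one_lt 3 (by norm_num)
  have hC : (0 : ℝ) < 1 / (14 * 2 * M ^ 2 * 25 + 1) := by positivity
  obtain ⟨m, hm, hm1⟩ := ((h.eventually (gt_mem_nhds hC)).and
    (Filter.eventually_ge_atTop 1)).exists
  refine ⟨m, ?_⟩
  have hm' : (1 : ℝ) ≤ m := by exact_mod_cast hm1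
  rw [div_lt_div_iff₀ (by positivity) (by positivity), one_mul] at hm
  have h1 : 14 * ((m : ℝ) + 1) * (M * (2 * m + 3)) ^ 2 ≤
      14 * (2 * m) * (M * (5 * m)) ^ 2 := by
    have a1 : (m : ℝ) + 1 ≤ 2 * m := by linarith
    have a2 : 2 * (m : ℝ) + 3 ≤ 5 * m := by linarith
    gcongr
  have hm3 : (1 : ℝ) ≤ (m : ℝ) ^ 3 := one_le_pow₀ hm'
  nlinarith

/-- **Q1 of MP_c62d6e_an is disproved.** There are `2π`-periodic weights `W₁`, `W₂` and `W` such
that every real `x` has an open neighbourhood on which `W` agrees with `W₁` or with `W₂`,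
`N_{W₁}(n), N_{W₂}(n) ≤ n + 2` for all `n`, and for every `M` there is `n ≥ 1` with
`N_W(n) > M max (N_{W₁}(n), N_{W₂}(n))`. -/
theorem result : ∃ W₁ W₂ W : ℝ → ℝ, IsWeight W₁ ∧ IsWeight W₂ ∧ IsWeight W ∧
    (∀ x : ℝ, ∃ U : Set ℝ, IsOpen U ∧ x ∈ U ∧
      ((∀ y ∈ U, W y = W₁ y) ∨ ∀ y ∈ U, W y = W₂ y)) ∧
    (∀ n : ℕ, minNodes W₁ n ≤ n + 2 ∧ minNodes W₂ n ≤ n + 2) ∧
    ∀ M : ℕ, ∃ n : ℕ, 1 ≤ n ∧ M * max (minNodes W₁ n) (minNodes W₂ n) < minNodes W n := by
  have hsym : ∀ (a : ℝ) (n : ℕ), minNodes (Wt a a) n ≤ n + 2 := by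
    intro a n
    refine (iInf₂_le _ (quadrature_sym n)).trans ?_
    have : 2 * (n / 2 + 1) ≤ n + 2 := by omega
    exact_mod_cast this
  refine ⟨Wt 1 1, Wt √2 √2, Wt 1 √2, isWeight_Wt one_pos one_pos,
    isWeight_Wt (by positivity) (by positivity), isWeight_Wt one_pos (by positivity), local_agree,
    fun n => ⟨hsym 1 n, hsym √2 n⟩, fun M => ?_⟩
  obtain ⟨m, hm⟩ := exists_large M
  refine ⟨2 * m + 1, by omega, ?_⟩
  have h1 : (M : ℕ∞) * max (minNodes (Wt 1 1) (2 * m + 1)) (minNodes (Wt √2 √2) (2 * m + 1)) ≤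
      ((M * (2 * m + 1 + 2) : ℕ) : ℕ∞) := by
    push_cast
    have h2 := max_le (hsym 1 (2 * m + 1)) (hsym √2 (2 * m + 1))
    push_cast at h2
    gcongr
  refine lt_of_le_of_lt h1 ?_
  have h2 : ((M * (2 * m + 1 + 2) + 1 : ℕ) : ℕ∞) ≤ minNodes (Wt 1 √2) (2 * m + 1) := by
    refine le_iInf₂ fun N hN => ?_
    have h3 := lower_bound hN
    by_contra hcon
    push Not at hcon
    have h4 : N ≤ M * (2 * m + 3) := by
      have h41 : N < M * (2 * m + 1 + 2) + 1 := by exact_mod_cast hcon
      have h42 : M * (2 * m + 1 + 2) = M * (2 * m + 3) := rfl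
      rw [h42] at h41
      omega
    have h5 : (N : ℝ) ≤ M * (2 * m + 3) := by exact_mod_cast h4
    have h6 : 14 * ((m : ℝ) + 1) * (N : ℝ) ^ 2 ≤ 14 * (m + 1) * (M * (2 * m + 3)) ^ 2 := by
      gcongr
    linarith
  refine lt_of_lt_of_le ?_ h2
  exact_mod_cast Nat.lt_succ_self _

end Pool.Agent.Results.MP_c62d6e_an.NotLocal
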